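import Pool.Agent.H20.DF.Bor

/-! Green's theorem on entire curves without zeros on many hyperplanes in general position. -/

set_option autoImplicit false

namespace Pool.Agent.H20.DF

/-- Borel's theorem for finite sets of functions. -/
theorem borel' {α : Type} [DecidableEq α] (T : Finset α) (u : α → ℂ → ℂ)
    (hd : ∀ i ∈ T, Differentiable ℂ (u i)) (h0 : ∀ i ∈ T, ∀ z, u i z ≠ 0)
    (hsum : ∀ z, ∑ i ∈ T, u i z = 0) {i : α} (hi : i ∈ T) :
    ∃ j ∈ T, j ≠ i ∧ ∃ c : ℂ, ∀ z, u j z = c * u i z := by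
  obtain ⟨s, hs⟩ : ∃ s, T.card = s + 1 := ⟨T.card - 1, by
    have := Finset.card_pos.2 ⟨i, hi⟩
    omega⟩
  let e := T.equivFinOfCardEq hs
  obtain ⟨j, hj, c, hc⟩ := borel (fun l => u (e.symm l)) (fun l => hd _ (e.symm l).2)
    (fun l => h0 _ (e.symm l).2) (fun z => by
      rw [← hsum z, ← Finset.sum_coe_sort T]
      exact Equiv.sum_comp e.symm (fun x : T => u x z)) (e ⟨i, hi⟩)
  refine ⟨e.symm j, (e.symm j).2, fun h => hj ?_, c, fun z => ?_⟩
  · have h1 : e.symm j = ⟨i, hi⟩ := Subtype.ext h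
    rw [← h1, Equiv.apply_symm_apply]
  · have := hc z
    simpa using this

/-- linear forms in general position on `ℂ^(k + 1)` -/
def GP {α : Type} (k : ℕ) (L : α → (Fin (k + 1) → ℂ) →ₗ[ℂ] ℂ) : Prop :=
  ∀ T : Finset α, T.card = k + 1 → ∀ x, (∀ j ∈ T, L j x = 0) → x = 0

variable {α : Type} [DecidableEq α] {k : ℕ} {L : α → (Fin (k + 1) → ℂ) →ₗ[ℂ] ℂ}

omit [DecidableEq α] in
lemma GP.eq_zero (hL : GP k L) {T : Finset α} (hT : k + 1 ≤ T.card) {x : Fin (k + 1) → ℂ}
    (hx : ∀ j ∈ T, L j x = 0) : x = 0 := by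
  obtain ⟨T', hT', hc⟩ := Finset.exists_subset_card_eq hT
  exact hL T' hc x fun j hj => hx j (hT' hj)

lemma GP.exists_dual (hL : GP k L) {T : Finset α} (hT : T.card = k + 1) {j : α} (hj : j ∈ T) :
    ∃ x, L j x = 1 ∧ ∀ i ∈ T, i ≠ j → L i x = 0 := by
  classical
  let Φ : (Fin (k + 1) → ℂ) →ₗ[ℂ] (T → ℂ) := LinearMap.pi fun i : T => L i
  have hinj : Function.Injective Φ := by
    rw [← LinearMap.ker_eq_bot, LinearMap.ker_eq_bot']
    intro x hx
    exact hL T hT x fun i hi => congrFun hx ⟨i, hi⟩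
  have hfr : Module.finrank ℂ (Fin (k + 1) → ℂ) = Module.finrank ℂ (T → ℂ) := by
    rw [Module.finrank_fin_fun, Module.finrank_fintype_fun_eq_card, Fintype.card_coe, hT]
  have hsurj : Function.Surjective Φ :=
    (LinearMap.injective_iff_surjective_of_finrank_eq_finrank hfr).1 hinj
  obtain ⟨x, hx⟩ := hsurj (Pi.single ⟨j, hj⟩ 1)
  refine ⟨x, ?_, fun i hi hij => ?_⟩
  · have := congrFun hx ⟨j, hj⟩
    rw [Pi.single_eq_same] at this
    exact this
  · have := congrFun hx ⟨i, hi⟩
    rw [Pi.single_eq_of_ne (fun h => hij (congrArg Subtype.val h))] at this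
    exact this

/-- a relation with nonzero coefficients between `k + 2` forms -/
lemma GP.exists_rel (hL : GP k L) {T : Finset α} (hT : T.card = k + 2) :
    ∃ c : α → ℂ, (∀ j ∈ T, c j ≠ 0) ∧ ∀ x, ∑ j ∈ T, c j * L j x = 0 := by
  classical
  have hdep : ¬ LinearIndependent ℂ (fun j : T => L j) := by
    intro h
    have h1 := h.fintype_card_le_finrank
    rw [Fintype.card_coe, hT, Module.finrank_linearMap, Module.finrank_fin_fun, Module.finrank_self]
      at h1
    omega
  rw [Fintype.not_linearIndependent_iff] at hdep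
  obtain ⟨g, hg, i0, hi0⟩ := hdep
  let c : α → ℂ := fun j => if h : j ∈ T then g ⟨j, h⟩ else 0
  have hc : ∀ j : T, c j = g j := fun j => by
    change (if h : (j : α) ∈ T then g ⟨j, h⟩ else 0) = g j
    rw [dif_pos j.2]
  have hrel : ∀ x, ∑ j ∈ T, c j * L j x = 0 := by
    intro x
    have h1 := congrArg (fun l : (Fin (k + 1) → ℂ) →ₗ[ℂ] ℂ => l x) hg
    simp only [LinearMap.sum_apply, LinearMap.smul_apply, smul_eq_mul, LinearMap.zero_apply] at h1
    rw [← Finset.sum_coe_sort T, ← h1]
    exact Finset.sum_congr rfl fun j _ => by rw [hc]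
  refine ⟨c, fun j hj hcj => ?_, hrel⟩
  -- if one coefficient vanishes, then all of them
  have hT' : (T.erase j).card = k + 1 := by
    rw [Finset.card_erase_of_mem hj, hT]
    rfl
  have h2 : ∀ i ∈ T.erase j, c i = 0 := by
    intro i hi
    obtain ⟨x, hx1, hx2⟩ := hL.exists_dual hT' hi
    have h3 := hrel x
    rw [← Finset.add_sum_erase T _ hj, hcj, zero_mul, zero_add, Finset.sum_eq_single i] at h3
    · rw [hx1, mul_one] at h3
      exact h3
    · intro b hb hbi
      rw [hx2 b hb hbi, mul_zero]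
    · intro h
      exact absurd hi h
  apply hi0
  rw [← hc i0]
  by_cases h4 : (i0 : α) = j
  · rw [h4, hcj]
  · exact h2 i0 (Finset.mem_erase.2 ⟨h4, i0.2⟩)

lemma diff_form (l : (Fin (k + 1) → ℂ) →ₗ[ℂ] ℂ) {f : ℂ → Fin (k + 1) → ℂ}
    (hf : Differentiable ℂ f) : Differentiable ℂ fun z => l (f z) := by
  have h1 : Differentiable ℂ fun x => l.toContinuousLinearMap x :=
    l.toContinuousLinearMap.differentiable
  exact h1.comp hf

/-- **Green's theorem.** An entire curve in the intersection of `k - m` hyperplanes which has no points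
on `2 m + 1` others is constant, if all of them are in general position in `ℙᵏ`. -/
theorem green {m : ℕ} (hL : GP k L) {f : ℂ → Fin (k + 1) → ℂ} (hf : Differentiable ℂ f)
    (I J : Finset α) (hIJ : Disjoint I J)
    (hI : ∀ i ∈ I, ∀ z, L i (f z) = 0) (hJ : ∀ j ∈ J, ∀ z, L j (f z) ≠ 0)
    (hIc : I.card + m = k) (hJc : 2 * m + 1 ≤ J.card) (z w : ℂ) : ∃ c : ℂ, f z = c • f w := by
  classical
  obtain ⟨j0, hj0⟩ : J.Nonempty := Finset.card_pos.1 (by omega)
  set C : Finset α := J.filter fun j => ∃ c : ℂ, ∀ z, L j (f z) = c * L j0 (f z) with hC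
  by_cases hCc : m + 1 ≤ C.card
  · refine ⟨L j0 (f z) / L j0 (f w), ?_⟩
    have hw := hJ j0 hj0 w
    have hdisj : Disjoint I C := hIJ.mono_right (Finset.filter_subset _ _)
    have h1 : f z - (L j0 (f z) / L j0 (f w)) • f w = 0 := by
      refine hL.eq_zero (T := I ∪ C) ?_ fun j hj => ?_
      · rw [Finset.card_union_of_disjoint hdisj]
        omega
      · rw [map_sub, map_smul, smul_eq_mul]
        rcases Finset.mem_union.1 hj with h2 | h2
        · rw [hI j h2 z, hI j h2 w, mul_zero, sub_zero]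
        · obtain ⟨c, hc⟩ := (Finset.mem_filter.1 h2).2
          rw [hc z, hc w]
          field_simp
          ring
    exact sub_eq_zero.1 h1
  · exfalso
    have hJC : m + 1 ≤ (J \ C).card := by
      have h1 := Finset.card_sdiff_add_card_eq_card (Finset.filter_subset
        (fun j => ∃ c : ℂ, ∀ z, L j (f z) = c * L j0 (f z)) J)
      rw [← hC] at h1
      omega
    obtain ⟨T', hT', hT'c⟩ := Finset.exists_subset_card_eq hJC
    have hj0C : j0 ∈ C := Finset.mem_filter.2 ⟨hj0, 1, fun z => (one_mul _).symm⟩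
    have hj0T : j0 ∉ T' := fun h => (Finset.mem_sdiff.1 (hT' h)).2 hj0C
    have hTJ : insert j0 T' ⊆ J := by
      intro j hj
      rcases Finset.mem_insert.1 hj with rfl | h
      · exact hj0
      · exact (Finset.mem_sdiff.1 (hT' h)).1
    have hdisj : Disjoint I (insert j0 T') := hIJ.mono_right hTJ
    obtain ⟨c, hc0, hrel⟩ := hL.exists_rel (T := I ∪ insert j0 T') (by
      rw [Finset.card_union_of_disjoint hdisj, Finset.card_insert_of_notMem hj0T, hT'c]
      omega)
    have hc0' : ∀ j ∈ insert j0 T', c j ≠ 0 := fun j hj => hc0 j (Finset.mem_union_right _ hj)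
    obtain ⟨j, hj, hjj0, b, hb⟩ := borel' (insert j0 T') (fun j z => c j * L j (f z))
      (fun j _ => (diff_form (L j) hf).const_mul (c j))
      (fun j hj z => mul_ne_zero (hc0' j hj) (hJ j (hTJ hj) z))
      (fun z => by
        have h1 := hrel (f z)
        rw [Finset.sum_union hdisj, Finset.sum_eq_zero (s := I), zero_add] at h1
        · exact h1
        · intro i hi
          rw [hI i hi z, mul_zero])
      (Finset.mem_insert_self j0 T')
    have hjT : j ∈ T' := (Finset.mem_insert.1 hj).resolve_left hjj0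
    have hjC : j ∈ C := by
      refine Finset.mem_filter.2 ⟨hTJ hj, b * c j0 / c j, fun z => ?_⟩
      have h1 := hb z
      have h2 := hc0' j hj
      field_simp
      linear_combination h1
    exact (Finset.mem_sdiff.1 (hT' hjT)).2 hjC

end Pool.Agent.H20.DF
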