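import Pool.Graph.R_pool_sql_team_seeded_35f281b4.K7.H11.LM.Open

/-! Limits of entire curves in degenerating projective varieties, with the information given by the
theorem of Hurwitz. -/

set_option autoImplicit false

open Filter Topology Metric Set MvPolynomial

namespace Pool.Agent.H20.DF

open Pool.Agent.Y190.OP
open Pool.Agent.K7.H11.LM

/-- zeros of the approximating functions (theorem of Hurwitz) -/
theorem hurwitz {ι : Type} {l : Filter ι} {U : Set ℂ} {g : ι → ℂ → ℂ} {h : ℂ → ℂ} (hU : IsOpen U)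
    (hd : ∀ᶠ i in l, DifferentiableOn ℂ (g i) U) (hlim : TendstoLocallyUniformlyOn g h l U)
    (hh : ContinuousOn h U) {z : ℂ} {r : ℝ} (hr : 0 < r) (hsub : closedBall z r ⊆ U) (hz : h z = 0)
    (hne : ∀ w ∈ sphere z r, h w ≠ 0) : ∀ᶠ i in l, ∃ x ∈ closedBall z r, g i x = 0 := by
  have hcs : IsCompact (sphere z r) := isCompact_sphere z r
  obtain ⟨δ, hδ, hδ'⟩ : ∃ δ : ℝ, 0 < δ ∧ ∀ w ∈ sphere z r, 2 * δ ≤ ‖h w‖ := by
    rcases (sphere z r).eq_empty_or_nonempty with he | hn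
    · exact ⟨1, one_pos, fun w hw => absurd hw (by rw [he]; simp)⟩
    · obtain ⟨w0, hw0, hmin⟩ := hcs.exists_isMinOn hn
        ((hh.mono (sphere_subset_closedBall.trans hsub)).norm)
      refine ⟨‖h w0‖ / 2, by have := norm_pos_iff.2 (hne w0 hw0); positivity, fun w hw => ?_⟩
      have := hmin hw
      simp only [Set.mem_ofPred_eq] at this
      linarith
  have hK := (tendstoLocallyUniformlyOn_iff_forall_isCompact hU).1 hlim (closedBall z r) hsub
    (isCompact_closedBall z r)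
  rw [Metric.tendstoUniformlyOn_iff] at hK
  filter_upwards [hd, hK δ hδ] with i hdi hi
  by_contra hcon
  push Not at hcon
  have hdc : DiffContOnCl ℂ (fun w => (g i w)⁻¹) (ball z r) := by
    apply DifferentiableOn.diffContOnCl
    rw [closure_ball z hr.ne']
    exact (hdi.mono hsub).inv hcon
  have hfr : ∀ w ∈ frontier (ball z r), ‖(g i w)⁻¹‖ ≤ δ⁻¹ := by
    intro w hw
    rw [frontier_ball z hr.ne'] at hw
    rw [norm_inv]
    apply inv_anti₀ hδ
    have h1 := hδ' w hw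
    have h2 := hi w (sphere_subset_closedBall hw)
    rw [dist_eq_norm] at h2
    have h3 : ‖h w‖ ≤ ‖h w - g i w‖ + ‖g i w‖ := by
      calc ‖h w‖ = ‖(h w - g i w) + g i w‖ := by rw [sub_add_cancel]
        _ ≤ _ := norm_add_le _ _
    linarith
  have h4 := Complex.norm_le_of_forall_mem_frontier_norm_le isBounded_ball hdc hfr
    (z := z) (subset_closure (mem_ball_self hr))
  have h5 := hi z (mem_closedBall_self hr.le)
  rw [hz, dist_zero_left] at h5
  have h6 : 0 < ‖g i z‖ := norm_pos_iff.2 (hcon z (mem_closedBall_self hr.le))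
  rw [norm_inv] at h4
  have h7 := (inv_le_inv₀ h6 hδ).1 h4
  linarith

/-- **Limits of entire curves in varying sets**, with the approximating curves. -/
theorem limit_curve' {N : ℕ} {S : ℕ → Set (Mat N)} {T : Set (Mat N)} (hTP : T ⊆ PM)
    (hcl : ∀ 𝓤 : Ultrafilter ℕ, (∀ R : ℝ, ∀ᶠ n : ℕ in (𝓤 : Filter ℕ), R ≤ n) → ∀ M : ℕ → Mat N,
      (∀ᶠ i in (𝓤 : Filter ℕ), M i ∈ S i) → ∃ y ∈ T, Tendsto M 𝓤 (𝓝 y))
    (hS : ∀ i, ∃ Ψ : ℂ → Mat N, HolP univ Ψ ∧ (∀ z, Ψ z ∈ S i) ∧ ¬ ∀ z, Ψ z = Ψ 0) :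
    ∃ (𝓤 : Ultrafilter ℕ) (h : ℕ → ℂ → Mat N) (H : ℂ → Mat N),
      (∀ R : ℝ, ∀ᶠ n : ℕ in (𝓤 : Filter ℕ), R ≤ n) ∧
      (∀ n : ℕ, HolP (ball 0 (n + 1 : ℝ)) (h n)) ∧
      (∀ n : ℕ, ∀ z ∈ ball (0 : ℂ) (n + 1 : ℝ), h n z ∈ S n) ∧
      (∀ R : ℝ, 0 < R → CConv (𝓤 : Filter ℕ) (ball 0 R) h H) ∧
      HolP univ H ∧ (∀ z, H z ∈ T) ∧ ¬ ∀ z, H z = H 0 := by
  have h1 : ∀ n : ℕ, ∃ h : ℂ → Mat N, HolP (ball 0 (n + 1 : ℝ)) h ∧
      (∀ z ∈ ball (0 : ℂ) (n + 1 : ℝ), h z ∈ S n) ∧
      (∀ z ∈ ball (0 : ℂ) ((n + 1 : ℝ) / 2), ‖fderiv ℝ h z‖ ≤ 2) ∧ ‖fderiv ℝ h 0‖ = 1 := by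
    intro n
    obtain ⟨Ψ, hΨ, hΨS, hne⟩ := hS n
    exact big hΨ hΨS hne (by positivity)
  choose h hH hHS hHd hH0 using h1
  set 𝓤 : Ultrafilter ℕ := hyperfilter ℕ with h𝓤
  have hcof : ∀ R : ℝ, ∀ᶠ n : ℕ in (𝓤 : Filter ℕ), R ≤ n := by
    intro R
    have h2 : ∀ᶠ n : ℕ in atTop, R ≤ n := by
      filter_upwards [eventually_ge_atTop ⌈R⌉₊] with n hn
      exact (Nat.le_ceil R).trans (by exact_mod_cast hn)
    have h3 : (𝓤 : Filter ℕ) ≤ atTop := by
      rw [← Nat.cofinite_eq_atTop]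
      exact hyperfilter_le_cofinite
    exact h3 h2
  have hlim : ∀ z : ℂ, ∃ y ∈ T, Tendsto (fun n => h n z) 𝓤 (𝓝 y) := by
    intro z
    refine hcl 𝓤 hcof _ ?_
    filter_upwards [hcof ‖z‖] with n hn
    exact hHS n z (mem_ball_zero_iff.2 (by linarith))
  choose H hHmem hHt using hlim
  have hCC : ∀ R : ℝ, 0 < R → CConv (𝓤 : Filter ℕ) (ball 0 R) h H := by
    intro R hR z hz
    rw [Metric.tendsto_nhds]
    intro ε hε
    have h2 := Metric.tendsto_nhds.1 (hHt z) (ε / 2) (by positivity)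
    have h3 := hcof (2 * R)
    rw [eventually_prod_iff]
    refine ⟨_, h2.and h3, fun w => w ∈ ball (0 : ℂ) R ∧ dist w z < ε / 4, ?_, ?_⟩
    · have h4 : ∀ᶠ w in 𝓝 z, w ∈ ball (0 : ℂ) R := isOpen_ball.mem_nhds hz
      have h5 : ∀ᶠ w in 𝓝 z, dist w z < ε / 4 := ball_mem_nhds z (by positivity)
      exact h4.and h5
    · rintro n ⟨hn1, hn2⟩ w ⟨hw1, hw2⟩
      have h6 : ‖h n w - h n z‖ ≤ 2 * ‖w - z‖ := by
        have hsub : ball (0 : ℂ) R ⊆ ball (0 : ℂ) ((n + 1 : ℝ) / 2) :=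
          ball_subset_ball (by linarith)
        have hsub2 : ball (0 : ℂ) R ⊆ ball (0 : ℂ) (n + 1 : ℝ) :=
          ball_subset_ball (by linarith)
        exact (convex_ball (0 : ℂ) R).norm_image_sub_le_of_norm_fderiv_le
          (fun x hx => (hH n).differentiableAt (hsub2 hx))
          (fun x hx => hHd n x (hsub hx)) hz hw1
      calc dist (h n w) (H z) ≤ dist (h n w) (h n z) + dist (h n z) (H z) := dist_triangle _ _ _
        _ < ε / 2 + ε / 2 := by
            refine add_lt_add ?_ hn1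
            rw [dist_eq_norm]
            rw [dist_eq_norm] at hw2
            linarith
        _ = ε := by ring
  have hev : ∀ R : ℝ, 0 < R → ∀ᶠ n in (𝓤 : Filter ℕ), HolP (ball 0 R) (h n) := by
    intro R _
    filter_upwards [hcof R] with n hn
    exact (hH n).mono (ball_subset_ball (by linarith))
  have hl := fun (R : ℝ) (hR : 0 < R) => holP_limit isOpen_ball (hCC R hR)
    (hev R hR) (fun z _ => hTP (hHmem z))
  have hHol : HolP univ H := by
    intro z _
    exact (hl (‖z‖ + 1) (by positivity)).1 z (mem_ball_zero_iff.2 (by linarith))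
  refine ⟨𝓤, h, H, hcof, hH, hHS, hCC, hHol, hHmem, fun hc => ?_⟩
  have hc1 : fderiv ℝ H 0 = 0 := by
    have : H = fun _ => H 0 := funext fun z => hc z
    rw [this]; simp
  have ht := (hl 1 one_pos).2 0 (mem_ball_self one_pos)
  rw [hc1] at ht
  have e1 := (ht.norm).eventually_lt_const (u := 1) (by simp)
  obtain ⟨n, hn⟩ := e1.exists
  rw [hH0 n] at hn
  exact lt_irrefl _ hn

variable {N : ℕ} {ι : Type}

/-- the restriction of a form to a chart -/
lemma eval_chart {A : MvPolynomial (Fin (N + 1)) ℂ} {a : ℕ} (hA : A.IsHomogeneous a)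
    {u : Fin (N + 1) → ℂ} (hu : u ≠ 0) {i : Fin (N + 1)} (hi : u i ≠ 0) :
    eval (chart i (Phi u)) A = (u i)⁻¹ ^ a * eval u A := by
  rw [chart_Phi hu hi, Pool.Agent.K7.H11.GG.eval_smul_hom hA]

/-- **Limits of entire curves in degenerating varieties.** Let the forms `Fn n j` converge to the forms
`F0 j`, uniformly on the unit ball, and suppose that the varieties `{Fn n = 0}` are not hyperbolic.
Then there is a nonconstant entire curve `f` in `{F0 = 0}` with the following property: if `A`, `B` are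
forms such that, for all `n`, `B` is zero at the zeros of `A` in `{Fn n = 0}`, and if `A` is not
identically zero on `f`, then `B (f z) = 0` at the points with `A (f z) = 0`. -/
theorem limit {F0 : ι → MvPolynomial (Fin (N + 1)) ℂ} {Fn : ℕ → ι → MvPolynomial (Fin (N + 1)) ℂ}
    (hF : ∀ n j, IsForm (Fn n j))
    (hclose : ∀ n j u, ‖u‖ ≤ 1 → ‖eval u (Fn n j) - eval u (F0 j)‖ ≤ 1 / (n + 1 : ℝ))
    (hnB : ∀ n, ¬ Brody (Fn n)) (hF0 : ∀ j, IsForm (F0 j)) :
    ∃ f : ℂ → Fin (N + 1) → ℂ, Differentiable ℂ f ∧ (∀ z, f z ≠ 0) ∧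
      (∀ z j, eval (f z) (F0 j) = 0) ∧ (¬ ∀ z w, ∃ c : ℂ, f z = c • f w) ∧
      ∀ A B : MvPolynomial (Fin (N + 1)) ℂ, IsForm A → IsForm B →
        (∀ n u, (∀ j, eval u (Fn n j) = 0) → eval u A = 0 → eval u B = 0) →
        (∃ z, eval (f z) A ≠ 0) → ∀ z, eval (f z) A = 0 → eval (f z) B = 0 := by
  obtain ⟨𝓤, h, H, hcof, hHol, hHS, hCC, hH, hHm, hne⟩ :=
    limit_curve' (S := fun n => MX (Fn n)) (T := MX F0) (by
    rintro M ⟨u, hu, -, rfl⟩
    exact ⟨u, hu, rfl⟩) (by
    intro 𝓤 hcof M hM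
    have h2 : ∀ n, ∃ u : Fin (N + 1) → ℂ, M n ∈ MX (Fn n) → ‖u‖ = 1 ∧
        (∀ j, eval u (Fn n j) = 0) ∧ M n = Phi u := by
      intro n
      by_cases hn : M n ∈ MX (Fn n)
      · obtain ⟨u, hu⟩ := mx_unit (hF n) hn
        exact ⟨u, fun _ => hu⟩
      · exact ⟨0, fun h => absurd h hn⟩
    choose u hu using h2
    have h3 : ∀ᶠ n in (𝓤 : Filter ℕ), u n ∈ sphere (0 : Fin (N + 1) → ℂ) 1 :=
      hM.mono fun n hn => mem_sphere_zero_iff_norm.2 (hu n hn).1
    obtain ⟨v, hv, hvt⟩ := (isCompact_sphere (0 : Fin (N + 1) → ℂ) 1).ultrafilter_le_nhds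
      (𝓤.map u) (by
        rw [le_principal_iff]
        exact h3)
    have hvt' : Tendsto u 𝓤 (𝓝 v) := hvt
    have hv1 : ‖v‖ = 1 := mem_sphere_zero_iff_norm.1 hv
    have hv0 : v ≠ 0 := by
      rintro rfl
      rw [norm_zero] at hv1
      exact zero_ne_one hv1
    refine ⟨Phi v, ⟨v, hv0, fun j => ?_, rfl⟩, ?_⟩
    · have h4 : Tendsto (fun n => eval (u n) (F0 j)) 𝓤 (𝓝 (eval v (F0 j))) :=
        ((MvPolynomial.continuous_eval (F0 j)).tendsto v).comp hvt'
      have h5 : Tendsto (fun n => eval (u n) (F0 j)) 𝓤 (𝓝 0) := by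
        rw [Metric.tendsto_nhds]
        intro ε hε
        filter_upwards [hM, hcof (1 / ε)] with n hn hn2
        obtain ⟨h6, h7, -⟩ := hu n hn
        have h8 := hclose n j (u n) h6.le
        rw [h7 j, zero_sub, norm_neg] at h8
        rw [dist_zero_right]
        refine lt_of_le_of_lt h8 ?_
        rw [div_lt_iff₀ (by positivity)]
        have h9 : 1 ≤ n * ε := by
          rwa [div_le_iff₀ hε] at hn2
        nlinarith
      exact tendsto_nhds_unique h4 h5
    · refine (((continuousAt_Phi hv0).tendsto).comp hvt').congr' ?_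
      filter_upwards [hM] with n hn
      exact (hu n hn).2.2.symm) (fun n => curve_of_not_brody (hnB n))
  obtain ⟨f, hf, hf0, hfH⟩ := zero_free hH
  refine ⟨f, hf, hf0, fun z j => ?_, fun hc => ?_, ?_⟩
  · obtain ⟨u, hu, h1, h2⟩ := hHm z
    rw [hfH z] at h2
    obtain ⟨c, -, hcu⟩ := Phi_inj hu (hf0 z) h2.symm
    rw [hcu]
    exact eval_smul' (hF0 j) (h1 j) c
  · apply hne
    intro z
    obtain ⟨c, hc⟩ := hc z 0
    have hc0 : c ≠ 0 := by
      rintro rfl
      rw [zero_smul] at hc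
      exact hf0 z hc
    rw [hfH z, hfH 0, hc, Phi_smul hc0]
  · rintro A B ⟨a, hA⟩ ⟨b, hB⟩ hAB ⟨z1, hz1⟩ z0 hz0
    by_contra hBz
    obtain ⟨i, hi⟩ := Function.ne_iff.1 (hf0 z0)
    rw [Pi.zero_apply] at hi
    have hHi : H z0 i i ≠ 0 := by
      rw [hfH z0]
      exact (Phi_diag_ne (hf0 z0)).2 hi
    -- a neighbourhood on which everything is defined
    have hR0 : (0 : ℝ) < ‖z0‖ + 1 := by positivity
    have hz0R : z0 ∈ ball (0 : ℂ) (‖z0‖ + 1) := mem_ball_zero_iff.2 (by linarith)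
    have hCC0 := hCC _ hR0 z0 hz0R
    have hcont : Continuous fun M : (Mat (N + 1)) => M i i := continuous_apply_apply i i
    have e1 : ∀ᶠ p : ℕ × ℂ in (𝓤 : Filter ℕ) ×ˢ 𝓝 z0, h p.1 p.2 i i ≠ 0 :=
      ((hcont.continuousAt.tendsto).comp hCC0).eventually_ne hHi
    rw [eventually_prod_iff] at e1
    obtain ⟨pa, hpa, pb, hpb, hab⟩ := e1
    have hdA : Differentiable ℂ fun z => eval (f z) A := Pool.Agent.K7.H11.GG.diff_eval hf A
    have hdB : Differentiable ℂ fun z => eval (f z) B := Pool.Agent.K7.H11.GG.diff_eval hf B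
    have e2 : ∀ᶠ w in 𝓝 z0, f w i ≠ 0 :=
      ((differentiable_pi.1 hf i).continuous.continuousAt).eventually_ne hi
    have e3 : ∀ᶠ w in 𝓝 z0, eval (f w) B ≠ 0 := hdB.continuous.continuousAt.eventually_ne hBz
    have e4 : ∀ᶠ w in 𝓝[≠] z0, eval (f w) A ≠ 0 := by
      rcases (hdA.analyticAt z0).eventually_eq_zero_or_eventually_ne_zero with h0 | h0
      · exfalso
        have h1 : AnalyticOnNhd ℂ (fun z => eval (f z) A) univ := fun z _ => hdA.analyticAt z
        have h2 := h1.eqOn_zero_of_preconnected_of_eventuallyEq_zero isPreconnected_univ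
          (mem_univ z0) h0
        exact hz1 (h2 (mem_univ z1))
      · exact h0
    have e4' : ∀ᶠ w in 𝓝 z0, w ≠ z0 → eval (f w) A ≠ 0 := eventually_nhdsWithin_iff.1 e4
    obtain ⟨ρ, hρ, hball⟩ := Metric.eventually_nhds_iff_ball.1
      (((hpb.and e2).and (e3.and e4')).and (isOpen_ball.mem_nhds hz0R))
    set U := ball z0 ρ with hU
    set r := ρ / 2 with hr
    have hr0 : 0 < r := by positivity
    have hsub : closedBall z0 r ⊆ U := closedBall_subset_ball (by linarith)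
    have hUR : U ⊆ ball (0 : ℂ) (‖z0‖ + 1) := fun w hw => (hball w hw).2
    have hHU : ∀ w ∈ U, H w i i ≠ 0 := fun w hw => by
      rw [hfH w]
      exact (Phi_diag_ne (hf0 w)).2 (hball w hw).1.1.2
    have hnU : ∀ᶠ n in (𝓤 : Filter ℕ), ∀ w ∈ U, h n w i i ≠ 0 := by
      filter_upwards [hpa] with n hn w hw
      exact hab hn (hball w hw).1.1.1
    have hCCU : CConv (𝓤 : Filter ℕ) U (fun n w => chart i (h n w)) (fun w => chart i (H w)) :=
      CConv.comp (fun w hw => hCC _ hR0 w (hUR hw)) (fun w hw => continuousAt_chart (hHU w hw))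
    have hCP : ∀ P : MvPolynomial (Fin (N + 1)) ℂ,
        CConv (𝓤 : Filter ℕ) U (fun n w => eval (chart i (h n w)) P)
          (fun w => eval (chart i (H w)) P) := fun P =>
      CConv.comp hCCU (fun w _ => (MvPolynomial.continuous_eval P).continuousAt)
    have hnHol : ∀ᶠ n in (𝓤 : Filter ℕ), ∀ w ∈ U,
        DifferentiableAt ℂ (fun w => chart i (h n w)) w := by
      filter_upwards [hcof (‖z0‖ + 1), hnU] with n hn hn' w hw
      refine (hHol n).diff_chart ?_ (hn' w hw)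
      have := mem_ball_zero_iff.1 (hUR hw)
      exact mem_ball_zero_iff.2 (by linarith)
    have hPd : ∀ (g : ℂ → Fin (N + 1) → ℂ) (P : MvPolynomial (Fin (N + 1)) ℂ) (w : ℂ),
        DifferentiableAt ℂ g w → DifferentiableAt ℂ (fun z => eval (g z) P) w := by
      intro g P w hg
      have h1 : ∀ j, DifferentiableAt ℂ (fun z => g z j) w := fun j => differentiableAt_pi.1 hg j
      induction P using MvPolynomial.induction_on with
      | C c => simp only [eval_C]; exact differentiableAt_const _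
      | add p q hp hq => simp only [map_add]; exact hp.add hq
      | mul_X p j hp => simp only [map_mul, eval_X]; exact hp.mul (h1 j)
    have hzero := hurwitz (l := (𝓤 : Filter ℕ)) (U := U)
      (g := fun n w => eval (chart i (h n w)) A) (h := fun w => eval (chart i (H w)) A)
      isOpen_ball (by
        filter_upwards [hnHol] with n hn w hw
        exact (hPd _ A w (hn w hw)).differentiableWithinAt)
      ((hCP A).locUnif isOpen_ball)
      (fun w hw => ((hCP A).continuousAt isOpen_ball hw).continuousWithinAt) hr0 hsub (by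
        change eval (chart i (H z0)) A = 0
        rw [hfH z0, eval_chart hA (hf0 z0) hi, hz0, mul_zero]) (by
        intro w hw
        have hwU : w ∈ U := hsub (sphere_subset_closedBall hw)
        have hwz : w ≠ z0 := by
          rintro rfl
          rw [mem_sphere, dist_self] at hw
          exact hr0.ne hw
        change eval (chart i (H w)) A ≠ 0
        rw [hfH w, eval_chart hA (hf0 w) (hball w hwU).1.1.2]
        exact mul_ne_zero (pow_ne_zero _ (inv_ne_zero (hball w hwU).1.1.2))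
          ((hball w hwU).1.2.2 hwz))
    -- `B` is bounded from below
    have hBU : ∀ w ∈ U, eval (chart i (H w)) B ≠ 0 := by
      intro w hw
      rw [hfH w, eval_chart hB (hf0 w) (hball w hw).1.1.2]
      exact mul_ne_zero (pow_ne_zero _ (inv_ne_zero (hball w hw).1.1.2)) (hball w hw).1.2.1
    have hBc : ContinuousOn (fun w => eval (chart i (H w)) B) U :=
      fun w hw => ((hCP B).continuousAt isOpen_ball hw).continuousWithinAt
    obtain ⟨w0, hw0, hmin⟩ := (isCompact_closedBall z0 r).exists_isMinOn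
      ⟨z0, mem_closedBall_self hr0.le⟩ ((hBc.mono hsub).norm)
    obtain ⟨δ, hδ⟩ : ∃ δ : ℝ, δ = ‖eval (chart i (H w0)) B‖ := ⟨_, rfl⟩
    have hδ0 : 0 < δ := by rw [hδ]; exact norm_pos_iff.2 (hBU w0 (hsub hw0))
    have hδ' : ∀ w ∈ closedBall z0 r, δ ≤ ‖eval (chart i (H w)) B‖ := by
      intro w hw
      rw [hδ]
      exact hmin hw
    have hK := (tendstoLocallyUniformlyOn_iff_forall_isCompact isOpen_ball).1
      ((hCP B).locUnif isOpen_ball) (closedBall z0 r) hsub (isCompact_closedBall z0 r)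
    rw [Metric.tendstoUniformlyOn_iff] at hK
    obtain ⟨n, ⟨x, hx, hxA⟩, hn1, hn2, hn3⟩ := (hzero.and ((hK δ hδ0).and
      (hnU.and (hcof (‖z0‖ + 1))))).exists
    have hxU : x ∈ U := hsub hx
    have hxR := mem_ball_zero_iff.1 (hUR hxU)
    obtain ⟨u, hu, hu1, hu2⟩ := hHS n x (mem_ball_zero_iff.2 (by linarith))
    have hui : u i ≠ 0 := by
      have := hn2 x hxU
      rw [hu2] at this
      exact (Phi_diag_ne hu).1 this
    have hxA' : eval (chart i (h n x)) A = 0 := hxA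
    rw [hu2, eval_chart hA hu hui] at hxA'
    have hAu : eval u A = 0 := (mul_eq_zero.1 hxA').resolve_left
      (pow_ne_zero _ (inv_ne_zero hui))
    have hBu : eval u B = 0 := hAB n u hu1 hAu
    have h7 := hn1 x hx
    have h8 : eval (chart i (h n x)) B = 0 := by
      rw [hu2, eval_chart hB hu hui, hBu, mul_zero]
    change dist (eval (chart i (H x)) B) (eval (chart i (h n x)) B) < δ at h7
    rw [h8, dist_zero_right] at h7
    exact absurd (hδ' x hx) (not_le.2 h7)

end Pool.Agent.H20.DF
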