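import Pool.Agent.H20.DF.Cyc
import Pool.Agent.H20.DF.Lim

/-! Hyperbolic complete intersections near unions of linear spaces. -/

set_option autoImplicit false

namespace Pool.Agent.H20.DF

open MvPolynomial
open Pool.Agent.K7.H11.LM
open Pool.Agent.K7.H11.GG (diff_eval)

section

variable {k c d : ℕ} [NeZero c]

/-- the first `k + 1` variables -/
def xx (k c : ℕ) (i : Fin (k + 1)) : Fin (k + c + 1) := ⟨i, by omega⟩

/-- the last `c` variables -/
def xD (k c : ℕ) [NeZero c] (j : ZMod c) : Fin (k + c + 1) :=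
  ⟨k + 1 + j.val, by have := ZMod.val_lt j; omega⟩

lemma cover (l : Fin (k + c + 1)) : (∃ i, l = xx k c i) ∨ ∃ j, l = xD k c j := by
  by_cases h : (l : ℕ) < k + 1
  · exact Or.inl ⟨⟨l, h⟩, rfl⟩
  · right
    have h1 : (l : ℕ) - (k + 1) < c := by have := l.2; omega
    refine ⟨(((l : ℕ) - (k + 1) : ℕ) : ZMod c), ?_⟩
    unfold xD
    rw [Fin.ext_iff]
    change (l : ℕ) = k + 1 + (((l : ℕ) - (k + 1) : ℕ) : ZMod c).val
    rw [ZMod.val_natCast, Nat.mod_eq_of_lt h1]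
    omega

/-- the linear forms `D_j - L_(j, b)(x)` -/
noncomputable def A (y : ZMod c → Fin (d + 2) → Fin (k + 1) → ℂ) (j : ZMod c) (b : Fin (d + 2)) :
    MvPolynomial (Fin (k + c + 1)) ℂ :=
  X (xD k c j) - ∑ i, C (y j b i) * X (xx k c i)

lemma eval_A (y : ZMod c → Fin (d + 2) → Fin (k + 1) → ℂ) (j : ZMod c) (b : Fin (d + 2))
    (u : Fin (k + c + 1) → ℂ) :
    eval u (A y j b) = u (xD k c j) - form (y j b) (fun i => u (xx k c i)) := by
  unfold A
  rw [map_sub, eval_X, map_sum, form_apply]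
  congr 1
  refine Finset.sum_congr rfl fun i _ => ?_
  rw [map_mul, eval_C, eval_X]

lemma hom_A (y : ZMod c → Fin (d + 2) → Fin (k + 1) → ℂ) (j : ZMod c) (b : Fin (d + 2)) :
    (A y j b).IsHomogeneous 1 := by
  unfold A
  refine (isHomogeneous_X ℂ _).sub (IsHomogeneous.sum _ _ _ fun i _ => ?_)
  have h2 := (isHomogeneous_C (Fin (k + c + 1)) (y j b i)).mul (isHomogeneous_X ℂ (xx k c i))
  simpa using h2

/-- an index different from `τ` -/
def oth (τ : Fin (d + 2)) : Fin (d + 2) := if τ = 0 then 1 else 0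

lemma oth_ne (τ : Fin (d + 2)) : oth τ ≠ τ := by
  unfold oth
  split
  · rename_i h
    rw [h]
    exact one_ne_zero
  · rename_i h
    exact fun h1 => h h1.symm

/-- the products of linear forms -/
noncomputable def F0 (y : ZMod c → Fin (d + 2) → Fin (k + 1) → ℂ) (δ : ZMod c → ℕ) (j : ZMod c) :
    MvPolynomial (Fin (k + c + 1)) ℂ :=
  A y j 0 ^ (δ j - (d + 2)) * ∏ b, A y j b

/-- the perturbations -/
noncomputable def Q (y : ZMod c → Fin (d + 2) → Fin (k + 1) → ℂ) (δ : ZMod c → ℕ) (j : ZMod c) :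
    MvPolynomial (Fin (k + c + 1)) ℂ :=
  ∑ τ, A y (j + 1) (oth τ) ^ (δ j - (d + 2) + 1) * ∏ b ∈ Finset.univ.erase τ, A y (j + 1) b

lemma hom_F0 (y : ZMod c → Fin (d + 2) → Fin (k + 1) → ℂ) {δ : ZMod c → ℕ} (hδ : ∀ j, d + 2 ≤ δ j)
    (j : ZMod c) : (F0 y δ j).IsHomogeneous (δ j) := by
  unfold F0
  have h1 := ((hom_A y j 0).pow (δ j - (d + 2))).mul
    (IsHomogeneous.prod (Finset.univ : Finset (Fin (d + 2))) (fun b => A y j b) (fun _ => 1)
      fun b _ => hom_A y j b)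
  rw [Finset.sum_const, Finset.card_univ, Fintype.card_fin, smul_eq_mul, mul_one, one_mul,
    Nat.sub_add_cancel (hδ j)] at h1
  exact h1

lemma hom_Q (y : ZMod c → Fin (d + 2) → Fin (k + 1) → ℂ) {δ : ZMod c → ℕ} (hδ : ∀ j, d + 2 ≤ δ j)
    (j : ZMod c) : (Q y δ j).IsHomogeneous (δ j) := by
  unfold Q
  refine IsHomogeneous.sum _ _ _ fun τ _ => ?_
  have h1 := ((hom_A y (j + 1) (oth τ)).pow (δ j - (d + 2) + 1)).mul
    (IsHomogeneous.prod (Finset.univ.erase τ) (fun b => A y (j + 1) b) (fun _ => 1)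
      fun b _ => hom_A y (j + 1) b)
  have h2 : 1 * (δ j - (d + 2) + 1) + ∑ _b ∈ Finset.univ.erase τ, 1 = δ j := by
    rw [Finset.sum_const, Finset.card_erase_of_mem (Finset.mem_univ τ), Finset.card_univ,
      Fintype.card_fin, smul_eq_mul, mul_one, one_mul]
    have := hδ j
    omega
  rw [h2] at h1
  exact h1

lemma eval_Q (y : ZMod c → Fin (d + 2) → Fin (k + 1) → ℂ) (δ : ZMod c → ℕ) (j : ZMod c)
    {u : Fin (k + c + 1) → ℂ} {σ : Fin (d + 2)} (hσ : eval u (A y (j + 1) σ) = 0)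
    (hQ : eval u (Q y δ j) = 0) : ∃ b, b ≠ σ ∧ eval u (A y (j + 1) b) = 0 := by
  unfold Q at hQ
  rw [map_sum, Finset.sum_eq_single σ] at hQ
  · rw [map_mul, map_pow, map_prod] at hQ
    rcases mul_eq_zero.1 hQ with h | h
    · exact ⟨oth σ, oth_ne σ, pow_eq_zero_iff (by omega) |>.1 h⟩
    · obtain ⟨b, hb, hb2⟩ := Finset.prod_eq_zero_iff.1 h
      exact ⟨b, (Finset.mem_erase.1 hb).1, hb2⟩
  · intro τ _ hτ
    rw [map_mul, map_prod, Finset.prod_eq_zero (i := σ) (Finset.mem_erase.2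
      ⟨fun h => hτ h.symm, Finset.mem_univ σ⟩) hσ, mul_zero]
  · intro h
    exact absurd (Finset.mem_univ σ) h

lemma bounded {N : ℕ} (P : MvPolynomial (Fin (N + 1)) ℂ) :
    ∃ B : ℝ, 0 < B ∧ ∀ u : Fin (N + 1) → ℂ, ‖u‖ ≤ 1 → ‖eval u P‖ ≤ B := by
  obtain ⟨B, hB⟩ := (isCompact_closedBall (0 : Fin (N + 1) → ℂ) 1).exists_bound_of_continuousOn
    (MvPolynomial.continuous_eval P).continuousOn
  refine ⟨max B 1, lt_max_of_lt_right one_pos, fun u hu => ?_⟩
  exact (hB u (mem_closedBall_zero_iff.2 hu)).trans (le_max_left _ _)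

/-- **Hyperbolic complete intersections near unions of linear spaces.** -/
theorem block (k c d : ℕ) [NeZero c] (δ : ZMod c → ℕ) (hδ : ∀ j, d + 2 ≤ δ j) (hck : k + 1 ≤ c)
    (hc : ∀ m, m ≤ k → (d + 1) * (m * (k - m)) + k + m + 1 ≤ (d + 1) * c) :
    ∃ F : ZMod c → MvPolynomial (Fin (k + c + 1)) ℂ, (∀ j, (F j).IsHomogeneous (δ j)) ∧
      Brody F := by
  classical
  obtain ⟨y, hy⟩ := exists_gp k (d + 2) (ZMod c)
  by_contra hcon
  push Not at hcon
  -- the bound for the perturbations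
  have hbd := fun j : ZMod c => bounded (Q y δ j)
  choose B hB0 hB using hbd
  obtain ⟨B', hB'⟩ : ∃ B' : ℝ, B' = ∑ j, B j := ⟨_, rfl⟩
  have hB'j : ∀ j, B j ≤ B' := fun j => by
    rw [hB']
    exact Finset.single_le_sum (f := B) (fun j _ => (hB0 j).le) (Finset.mem_univ j)
  have hB'0 : 0 < B' := lt_of_lt_of_le (hB0 0) (hB'j 0)
  obtain ⟨ε, hε⟩ : ∃ ε : ℕ → ℝ, ε = fun n : ℕ => 1 / ((n : ℝ) + 1) / B' := ⟨_, rfl⟩
  have hε0 : ∀ n, 0 < ε n := fun n => by rw [hε]; positivity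
  have hQf : ∀ j, IsForm (Q y δ j) := fun j => ⟨_, hom_Q y hδ j⟩
  have hhom : ∀ n j, (F0 y δ j + C ((ε n : ℝ) : ℂ) * Q y δ j).IsHomogeneous (δ j) := by
    intro n j
    refine (hom_F0 y hδ j).add ?_
    have h1 := (isHomogeneous_C (Fin (k + c + 1)) ((ε n : ℝ) : ℂ)).mul (hom_Q y hδ j)
    rwa [zero_add] at h1
  obtain ⟨f, hf, hf0, hfF, hne, hH⟩ := limit (F0 := F0 y δ)
    (Fn := fun n j => F0 y δ j + C ((ε n : ℝ) : ℂ) * Q y δ j)
    (fun n j => ⟨_, hhom n j⟩) (by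
      intro n j u hu
      rw [map_add, add_sub_cancel_left, map_mul, eval_C, norm_mul, Complex.norm_real,
        Real.norm_of_nonneg (hε0 n).le]
      have h1 : ‖eval u (Q y δ j)‖ ≤ B' := (hB j u hu).trans (hB'j j)
      calc ε n * ‖eval u (Q y δ j)‖ ≤ ε n * B' := mul_le_mul_of_nonneg_left h1 (hε0 n).le
        _ = 1 / (n + 1 : ℝ) := by
            rw [hε]
            field_simp)
    (fun n hB => hcon _ (hhom n) hB) (fun j => ⟨_, hom_F0 y hδ j⟩)
  apply hne
  -- the component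
  have hAd : ∀ j b, Differentiable ℂ fun z => eval (f z) (A y j b) := fun j b =>
    diff_eval hf (A y j b)
  have hcomp : ∀ j, ∃ b, ∀ z, eval (f z) (A y j b) = 0 := by
    intro j
    obtain ⟨b, -, hb⟩ := prod_zero Finset.univ (fun b z => eval (f z) (A y j b))
      (fun b _ => hAd j b) (fun z => by
        have h1 := hfF z j
        unfold F0 at h1
        rw [map_mul, map_pow, map_prod] at h1
        rcases mul_eq_zero.1 h1 with h2 | h2
        · exact Finset.prod_eq_zero (Finset.mem_univ 0) ((pow_eq_zero_iff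
            (fun h3 => by
              rw [h3, pow_zero] at h2
              exact one_ne_zero h2)).1 h2)
        · exact h2)
    exact ⟨b, hb⟩
  choose σ hσ using hcomp
  obtain ⟨x, hx⟩ : ∃ x : ℂ → Fin (k + 1) → ℂ, x = fun z i => f z (xx k c i) := ⟨_, rfl⟩
  have hxd : Differentiable ℂ x := by
    rw [hx, differentiable_pi]
    exact fun i => differentiable_pi.1 hf _
  have hD : ∀ z j, f z (xD k c j) = form (y j (σ j)) (x z) := by
    intro z j
    have h1 := hσ j z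
    rw [eval_A] at h1
    rw [hx]
    exact sub_eq_zero.1 h1
  have hx0 : ∀ z, x z ≠ 0 := by
    intro z hz
    apply hf0 z
    funext l
    rcases cover l with ⟨i, rfl⟩ | ⟨j, rfl⟩
    · have := congrFun hz i
      rw [hx] at this
      exact this
    · rw [hD, hz, map_zero, Pi.zero_apply]
  have hL : ∀ (p : Oth σ) z, eval (f z) (A y p.1.1 p.1.2) =
      form (y p.1.1 (σ p.1.1) - y p.1.1 p.1.2) (x z) := by
    intro p z
    rw [eval_A, hD, form_apply, form_apply, form_apply, ← Finset.sum_sub_distrib]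
    refine Finset.sum_congr rfl fun i _ => ?_
    rw [Pi.sub_apply, hx]
    ring
  have hconst := cyc σ _ (hy σ) hck hc hxd hx0 (by
    rintro p ⟨z1, hz1⟩ z hz
    rw [← hL] at hz1
    rw [← hL] at hz
    have h1 := hH (A y p.1.1 p.1.2) (Q y δ p.1.1) ⟨1, hom_A y _ _⟩ (hQf _) (by
      intro n u hu hA
      have h2 := hu p.1.1
      rw [map_add, map_mul, eval_C] at h2
      unfold F0 at h2
      rw [map_mul, map_prod, Finset.prod_eq_zero (Finset.mem_univ p.1.2) hA, mul_zero,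
        zero_add] at h2
      refine (mul_eq_zero.1 h2).resolve_left ?_
      exact_mod_cast (hε0 n).ne') ⟨z1, hz1⟩ z hz
    obtain ⟨b, hb, hb2⟩ := eval_Q y δ p.1.1 (hσ (p.1.1 + 1) z) h1
    refine ⟨⟨(p.1.1 + 1, b), hb⟩, rfl, ?_⟩
    rw [← hL]
    exact hb2)
  intro z w
  obtain ⟨e, he⟩ := hconst z w
  refine ⟨e, ?_⟩
  funext l
  rcases cover l with ⟨i, rfl⟩ | ⟨j, rfl⟩
  · have := congrFun he i
    rw [hx] at this
    exact this
  · rw [Pi.smul_apply, hD, hD, he, map_smul]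

end

end Pool.Agent.H20.DF
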