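import Pool.Agent.H20.CI.Pow
import Pool.Graph.R_seed8.H159R3.War.Main

/-! Borel's theorem on vanishing sums of zero-free entire functions. -/

set_option autoImplicit false

namespace Pool.Agent.H20.DF

open MvPolynomial

/-- roots of zero-free entire functions -/
lemma exists_root {u : ℂ → ℂ} (hd : Differentiable ℂ u) (h0 : ∀ z, u z ≠ 0) {d : ℕ} (hd0 : d ≠ 0) :
    ∃ v : ℂ → ℂ, Differentiable ℂ v ∧ (∀ z, v z ≠ 0) ∧ ∀ z, v z ^ d = u z := by
  have hdd : Differentiable ℂ (deriv u) := by
    have h1 : DifferentiableOn ℂ (deriv u) Set.univ := hd.differentiableOn.deriv isOpen_univ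
    exact differentiableOn_univ.1 h1
  have hh : Differentiable ℂ fun z => deriv u z / u z := fun z => (hdd z).div (hd z) (h0 z)
  obtain ⟨g, hg⟩ := hh.isExactOn_univ
  have hg' : ∀ z, HasDerivAt g (deriv u z / u z) z := fun z => hg z (Set.mem_univ z)
  have hgd : Differentiable ℂ g := fun z => (hg' z).differentiableAt
  have hconst : ∀ z, u z * Complex.exp (-g z) = u 0 * Complex.exp (-g 0) := by
    intro z
    refine is_const_of_deriv_eq_zero (𝕜 := ℂ) (f := fun z => u z * Complex.exp (-g z))
      (hd.mul (hgd.neg.cexp)) (fun w => ?_) z 0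
    have h1 := ((hd w).hasDerivAt).mul ((hg' w).neg.cexp)
    have h2 : deriv (fun z => u z * Complex.exp (-g z)) w = _ := h1.deriv
    rw [h2]
    have := h0 w
    simp only [Pi.neg_apply]
    field_simp
    ring
  obtain ⟨c, hc⟩ : ∃ c : ℂ, c = u 0 * Complex.exp (-g 0) := ⟨_, rfl⟩
  have hc0 : c ≠ 0 := by rw [hc]; exact mul_ne_zero (h0 0) (Complex.exp_ne_zero _)
  have hu : ∀ z, u z = c * Complex.exp (g z) := by
    intro z
    rw [hc, ← hconst z, mul_assoc, ← Complex.exp_add, neg_add_cancel, Complex.exp_zero, mul_one]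
  refine ⟨fun z => Complex.exp ((Complex.log c + g z) / d), ?_, fun z => Complex.exp_ne_zero _,
    fun z => ?_⟩
  · exact (((differentiable_const _).add hgd).div_const _).cexp
  · rw [← Complex.exp_nat_mul, mul_div_cancel₀ _ (by exact_mod_cast hd0 : (d : ℂ) ≠ 0),
      Complex.exp_add, Complex.exp_log hc0, hu z]

/-- **Borel's theorem.** If a sum of zero-free entire functions vanishes, then each of them is
proportional to another one. -/
theorem borel {s : ℕ} (u : Fin (s + 1) → ℂ → ℂ) (hd : ∀ i, Differentiable ℂ (u i))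
    (h0 : ∀ i z, u i z ≠ 0) (hsum : ∀ z, ∑ i, u i z = 0) (i : Fin (s + 1)) :
    ∃ j, j ≠ i ∧ ∃ c : ℂ, ∀ z, u j z = c * u i z := by
  classical
  obtain ⟨d, hdef⟩ : ∃ d : ℕ, d = (s + 1) ^ 2 := ⟨_, rfl⟩
  have hd0 : d ≠ 0 := by rw [hdef]; positivity
  have hroot := fun i => exists_root (hd i) (h0 i) hd0
  choose v hvd hv0 hv using hroot
  have hSW : Pool.Agent.H159R3.War.SmallWaring
      (∑ k : Fin (s + 1), (∑ j : Fin (s + 1), C (if j = k then (1 : ℂ) else 0) * X j) ^ d) := by
    refine ⟨d, s + 1, fun k j => if j = k then 1 else 0, Nat.pos_of_ne_zero hd0, ?_, rfl⟩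
    rw [hdef]
    have : s + 1 - 1 = s := rfl
    rw [this]
    exact Nat.pow_le_pow_left (Nat.le_succ s) 2
  have heval : ∀ x : Fin (s + 1) → ℂ,
      eval x (∑ k : Fin (s + 1), (∑ j : Fin (s + 1), C (if j = k then (1 : ℂ) else 0) * X j) ^ d) =
        ∑ k, x k ^ d := by
    intro x
    rw [map_sum]
    refine Finset.sum_congr rfl fun k _ => ?_
    rw [map_pow, map_sum]
    congr 1
    rw [Finset.sum_eq_single k]
    · rw [if_pos rfl, map_one, one_mul, eval_X]
    · intro b _ hb
      rw [if_neg hb, map_zero, zero_mul, map_zero]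
    · intro h
      exact absurd (Finset.mem_univ k) h
  have hspan := Pool.Agent.H159R3.War.span_in hSW (fun z k => v k z)
    (differentiable_pi.2 hvd) (fun z => by
      rw [heval, ← hsum z]
      exact Finset.sum_congr rfl fun k _ => hv k z)
  -- for all `z`, `w` the ratios coincide for some `j ≠ i`
  have hkey : ∀ w, ∃ j, j ≠ i ∧ v j w * v i 0 = v i w * v j 0 := by
    intro w
    by_contra hcon
    push Not at hcon
    have h1 : ∀ t : ℂ, ∑ j ∈ Finset.univ, u j 0 * (1 + t * (v j w / v j 0)) ^ d = 0 := by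
      intro t
      have h2 := hspan 1 t 0 w
      rw [heval] at h2
      refine Eq.trans (Finset.sum_congr rfl fun j _ => ?_) h2
      rw [← hv j 0, ← mul_pow]
      congr 1
      have := hv0 j 0
      simp only [Pi.add_apply, Pi.smul_apply, smul_eq_mul]
      field_simp
    have h2 := Pool.Agent.H20.CI.sum_class Finset.univ (fun j => u j 0) (fun j => v j w / v j 0) d
      (by
        rw [Finset.card_univ, Fintype.card_fin, hdef]
        nlinarith) h1 (Finset.mem_univ i)
    have h3 : Finset.univ.filter (fun j => v j w / v j 0 = v i w / v i 0) = {i} := by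
      ext j
      rw [Finset.mem_filter, Finset.mem_singleton]
      constructor
      · rintro ⟨-, hj⟩
        by_contra hji
        apply hcon j hji
        rw [div_eq_div_iff (hv0 j 0) (hv0 i 0)] at hj
        exact hj
      · rintro rfl
        exact ⟨Finset.mem_univ _, rfl⟩
    rw [h3, Finset.sum_singleton] at h2
    exact h0 i 0 h2
  have hprod : ∀ w ∈ (Set.univ : Set ℂ),
      ∏ j ∈ Finset.univ.erase i, (v j w * v i 0 - v i w * v j 0) = 0 := by
    intro w _
    obtain ⟨j, hj, h⟩ := hkey w
    exact Finset.prod_eq_zero (Finset.mem_erase.2 ⟨hj, Finset.mem_univ j⟩) (by rw [h, sub_self])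
  have hfac : ∀ T : Finset (Fin (s + 1)),
      (∀ w, ∏ j ∈ T, (v j w * v i 0 - v i w * v j 0) = 0) →
      ∃ j ∈ T, ∀ w, v j w * v i 0 - v i w * v j 0 = 0 := by
    intro T
    induction T using Finset.induction_on with
    | empty => intro h; simpa using h 0
    | insert a T ha ih =>
      intro h
      have hdif : ∀ j, Differentiable ℂ fun w => v j w * v i 0 - v i w * v j 0 := fun j =>
        ((hvd j).mul_const _).sub ((hvd i).mul_const _)
      have hdT : Differentiable ℂ fun w => ∏ j ∈ T, (v j w * v i 0 - v i w * v j 0) := by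
        have h1 := Differentiable.fun_finsetProd (u := T)
          (f := fun j w => v j w * v i 0 - v i w * v j 0) (fun j _ => hdif j)
        exact h1
      rcases AnalyticOnNhd.eq_zero_or_eq_zero_of_mul_eq_zero
        (f := fun w => v a w * v i 0 - v i w * v a 0)
        (g := fun w => ∏ j ∈ T, (v j w * v i 0 - v i w * v j 0)) (U := Set.univ)
        (fun x _ => (hdif a).analyticAt x) (fun x _ => hdT.analyticAt x)
        (fun w _ => by
          have h2 := h w
          rw [Finset.prod_insert ha] at h2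
          exact h2) isPreconnected_univ with h3 | h3
      · exact ⟨a, Finset.mem_insert_self a T, fun w => h3 w (Set.mem_univ w)⟩
      · obtain ⟨j, hj, hj2⟩ := ih fun w => h3 w (Set.mem_univ w)
        exact ⟨j, Finset.mem_insert_of_mem hj, hj2⟩
  obtain ⟨j, hj, hj2⟩ := hfac _ fun w => hprod w (Set.mem_univ w)
  refine ⟨j, (Finset.mem_erase.1 hj).1, (v j 0 / v i 0) ^ d, fun z => ?_⟩
  rw [← hv j z, ← hv i z, ← mul_pow]
  congr 1
  have h1 := hj2 z
  have h2 := hv0 i 0
  field_simp
  linear_combination h1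

end Pool.Agent.H20.DF
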