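import Pool.Agent.H20.DF.Gpo

/-! Entire curves with a cyclic condition for the zeros of linear forms. -/

set_option autoImplicit false

namespace Pool.Agent.H20.DF

/-- if a product of entire functions vanishes then one of them vanishes -/
lemma prod_zero {α : Type} [DecidableEq α] (T : Finset α) (g : α → ℂ → ℂ)
    (hg : ∀ j ∈ T, Differentiable ℂ (g j)) (h : ∀ w, ∏ j ∈ T, g j w = 0) :
    ∃ j ∈ T, ∀ w, g j w = 0 := by
  induction T using Finset.induction_on with
  | empty => simpa using h 0
  | insert a T ha ih =>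
    have hdT : Differentiable ℂ fun w => ∏ j ∈ T, g j w :=
      Differentiable.fun_finsetProd (fun j hj => hg j (Finset.mem_insert_of_mem hj))
    rcases AnalyticOnNhd.eq_zero_or_eq_zero_of_mul_eq_zero
      (f := g a) (g := fun w => ∏ j ∈ T, g j w) (U := Set.univ)
      (fun x _ => (hg a (Finset.mem_insert_self a T)).analyticAt x) (fun x _ => hdT.analyticAt x)
      (fun w _ => by
        have h2 := h w
        rw [Finset.prod_insert ha] at h2
        exact h2) isPreconnected_univ with h3 | h3
    · exact ⟨a, Finset.mem_insert_self a T, fun w => h3 w (Set.mem_univ w)⟩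
    · obtain ⟨j, hj, hj2⟩ := ih (fun j hj => hg j (Finset.mem_insert_of_mem hj))
        fun w => h3 w (Set.mem_univ w)
      exact ⟨j, Finset.mem_insert_of_mem hj, hj2⟩

/-- **Entire curves with a cyclic condition for the zeros.** Let the forms `L p`, `p = (j, b)`,
`j` modulo `c`, `b ≠ σ j`, be in general position, and let `x` be an entire curve such that the zeros
of `L (j, b)` on the curve, if it is not identically zero on it, are zeros of some `L (j + 1, b')`. If
`c` is large enough, then `x` is constant. -/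
theorem cyc {k c d : ℕ} [NeZero c] (σ : ZMod c → Fin (d + 2))
    (L : Oth σ → (Fin (k + 1) → ℂ) →ₗ[ℂ] ℂ) (hL : GP k L) (hck : k + 1 ≤ c)
    (hc : ∀ m, m ≤ k → (d + 1) * (m * (k - m)) + k + m + 1 ≤ (d + 1) * c)
    {x : ℂ → Fin (k + 1) → ℂ} (hx : Differentiable ℂ x) (hx0 : ∀ z, x z ≠ 0)
    (hchain : ∀ p : Oth σ, (∃ z, L p (x z) ≠ 0) → ∀ z, L p (x z) = 0 →
      ∃ p' : Oth σ, p'.1.1 = p.1.1 + 1 ∧ L p' (x z) = 0) (z w : ℂ) :
    ∃ c : ℂ, x z = c • x w := by
  classical
  set I : Finset (Oth σ) := Finset.univ.filter fun p => ∀ z, L p (x z) = 0 with hI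
  have hIz : ∀ p ∈ I, ∀ z, L p (x z) = 0 := fun p hp => (Finset.mem_filter.1 hp).2
  have hIk : I.card ≤ k := by
    by_contra hcon
    exact hx0 0 (hL.eq_zero (T := I) (by omega) fun p hp => hIz p hp 0)
  obtain ⟨m, hm⟩ : ∃ m, I.card + m = k := ⟨k - I.card, by omega⟩
  set B : Finset (ZMod c) := I.image (fun p => p.1.1) with hB
  have hBc : B.card ≤ k - m := by
    have h1 := Finset.card_image_le (s := I) (f := fun p : Oth σ => p.1.1)
    rw [← hB] at h1
    omega
  set E : Finset (ZMod c) := Finset.univ.filter fun j => ∀ a : ℕ, 1 ≤ a → a ≤ m → j + a ∉ B with hE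
  set J : Finset (Oth σ) := Finset.univ.filter fun p => p.1.1 ∈ E ∧ p ∉ I with hJ
  -- the size of `E`
  have hEc : c ≤ E.card + m * (k - m) := by
    have h1 : (Finset.univ : Finset (ZMod c)) ⊆
        E ∪ (Finset.range m).biUnion fun a => B.image fun b => b - ((a + 1 : ℕ) : ZMod c) := by
      intro j _
      rw [Finset.mem_union]
      by_cases hj : j ∈ E
      · exact Or.inl hj
      · right
        rw [hE, Finset.mem_filter] at hj
        push Not at hj
        obtain ⟨a, ha1, ha2, ha3⟩ := hj (Finset.mem_univ j)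
        rw [Finset.mem_biUnion]
        refine ⟨a - 1, Finset.mem_range.2 (by omega), Finset.mem_image.2 ⟨j + a, ha3, ?_⟩⟩
        rw [Nat.sub_add_cancel ha1, add_sub_cancel_right]
    have h2 := (Finset.card_le_card h1).trans (Finset.card_union_le _ _)
    rw [Finset.card_univ, ZMod.card] at h2
    have h3 : ((Finset.range m).biUnion fun a =>
        B.image fun b => b - ((a + 1 : ℕ) : ZMod c)).card ≤ m * (k - m) := by
      refine Finset.card_biUnion_le.trans ?_
      calc ∑ a ∈ Finset.range m, (B.image fun b => b - ((a + 1 : ℕ) : ZMod c)).card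
          ≤ ∑ _a ∈ Finset.range m, (k - m) :=
            Finset.sum_le_sum fun a _ => Finset.card_image_le.trans hBc
        _ = m * (k - m) := by rw [Finset.sum_const, Finset.card_range, smul_eq_mul]
    omega
  -- the size of `J`
  have hJc : 2 * m + 1 ≤ J.card := by
    have h1 : (E ×ˢ (Finset.univ : Finset (Fin (d + 1)))).card ≤ (I ∪ J).card := by
      refine Finset.card_le_card_of_injOn
        (fun q => (⟨(q.1, (σ q.1).succAbove q.2), Fin.succAbove_ne _ _⟩ : Oth σ)) ?_ ?_
      · intro q hq
        have hq1 : q.1 ∈ E := (Finset.mem_product.1 (Finset.mem_coe.1 hq)).1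
        rw [Finset.mem_coe, Finset.mem_union]
        by_cases h2 : (⟨(q.1, (σ q.1).succAbove q.2), Fin.succAbove_ne _ _⟩ : Oth σ) ∈ I
        · exact Or.inl h2
        · exact Or.inr (Finset.mem_filter.2 ⟨Finset.mem_univ _, hq1, h2⟩)
      · rintro ⟨a, b⟩ - ⟨a', b'⟩ - h
        have h2 : ((a, (σ a).succAbove b) : ZMod c × Fin (d + 2)) = (a', (σ a').succAbove b') :=
          congrArg Subtype.val h
        obtain ⟨h3, h4⟩ := Prod.ext_iff.1 h2
        have h3' : a = a' := h3
        subst h3'
        have h4' : (σ a).succAbove b = (σ a).succAbove b' := h4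
        rw [Fin.succAbove_right_injective h4']
    rw [Finset.card_product, Finset.card_univ, Fintype.card_fin] at h1
    have h2 := h1.trans (Finset.card_union_le _ _)
    have h3 := hc m (by omega)
    have h4 : (d + 1) * c ≤ (d + 1) * (E.card + m * (k - m)) := Nat.mul_le_mul_left _ hEc
    have h5 : (d + 1) * (E.card + m * (k - m)) = E.card * (d + 1) + (d + 1) * (m * (k - m)) := by
      ring
    omega
  -- no zeros
  have hJ0 : ∀ p ∈ J, ∀ z, L p (x z) ≠ 0 := by
    intro p hp z hz
    obtain ⟨-, hpE, hpI⟩ := Finset.mem_filter.1 hp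
    have hpE' := (Finset.mem_filter.1 hpE).2
    have hnI : ∀ p' : Oth σ, p' ∉ I → ∃ z, L p' (x z) ≠ 0 := by
      intro p' hp'
      by_contra hcon
      push Not at hcon
      exact hp' (Finset.mem_filter.2 ⟨Finset.mem_univ _, hcon⟩)
    have hstep : ∀ a : ℕ, a ≤ m → ∃ p' : Oth σ, p'.1.1 = p.1.1 + a ∧ p' ∉ I ∧ L p' (x z) = 0 := by
      intro a
      induction a with
      | zero => exact fun _ => ⟨p, by simp, hpI, hz⟩
      | succ a ih =>
        intro ha
        obtain ⟨p1, h1, h2, h3⟩ := ih (by omega)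
        obtain ⟨p2, h4, h5⟩ := hchain p1 (hnI p1 h2) z h3
        have h6 : p2.1.1 = p.1.1 + ((a + 1 : ℕ) : ZMod c) := by
          rw [h4, h1]
          push_cast
          ring
        refine ⟨p2, h6, fun h7 => ?_, h5⟩
        apply hpE' (a + 1) (by omega) ha
        rw [← h6]
        exact Finset.mem_image_of_mem _ h7
    have : Nonempty (Oth σ) := ⟨p⟩
    choose! P hP using hstep
    refine hx0 z (hL.eq_zero (T := I ∪ (Finset.range (m + 1)).image P) ?_ fun p' hp' => ?_)
    · rw [Finset.card_union_of_disjoint, Finset.card_image_of_injOn, Finset.card_range]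
      · omega
      · intro a ha b hb hab
        have ha' : a ≤ m := Nat.lt_succ_iff.1 (Finset.mem_range.1 (Finset.mem_coe.1 ha))
        have hb' : b ≤ m := Nat.lt_succ_iff.1 (Finset.mem_range.1 (Finset.mem_coe.1 hb))
        have h1 : p.1.1 + (a : ZMod c) = p.1.1 + (b : ZMod c) := by
          rw [← (hP a ha').1, ← (hP b hb').1]
          have hab' : P a = P b := hab
          rw [hab']
        have h2 := add_left_cancel h1
        rw [ZMod.natCast_eq_natCast_iff'] at h2
        rwa [Nat.mod_eq_of_lt (by omega), Nat.mod_eq_of_lt (by omega)] at h2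
      · rw [Finset.disjoint_left]
        intro q hq1 hq2
        obtain ⟨a, ha, rfl⟩ := Finset.mem_image.1 hq2
        exact (hP a (Nat.lt_succ_iff.1 (Finset.mem_range.1 ha))).2.1 hq1
    · rcases Finset.mem_union.1 hp' with h | h
      · exact hIz p' h z
      · obtain ⟨a, ha, rfl⟩ := Finset.mem_image.1 h
        exact (hP a (Nat.lt_succ_iff.1 (Finset.mem_range.1 ha))).2.2
  refine green hL hx I J ?_ hIz hJ0 hm hJc z w
  rw [Finset.disjoint_left]
  exact fun p hp1 hp2 => (Finset.mem_filter.1 hp2).2.2 hp1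

end Pool.Agent.H20.DF
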