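import Pool.Agent.H20.DF.Grn

/-! Generic families of linear forms, such that all the families of differences are in general
position. -/

set_option autoImplicit false

namespace Pool.Agent.H20.DF

open MvPolynomial

/-- the linear form with the coefficients `v` -/
noncomputable def form {k : ℕ} (v : Fin (k + 1) → ℂ) : (Fin (k + 1) → ℂ) →ₗ[ℂ] ℂ :=
  ∑ i, v i • LinearMap.proj i

lemma form_apply {k : ℕ} (v x : Fin (k + 1) → ℂ) : form v x = ∑ i, v i * x i := by
  unfold form
  rw [LinearMap.sum_apply]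
  rfl

/-- the pairs `(j, b)` with `b ≠ σ j` -/
abbrev Oth {ι : Type} {d : ℕ} (σ : ι → Fin d) : Type := {p : ι × Fin d // p.2 ≠ σ p.1}

theorem exists_gp (k d : ℕ) (ι : Type) [Fintype ι] [DecidableEq ι] :
    ∃ y : ι → Fin d → Fin (k + 1) → ℂ, ∀ σ : ι → Fin d,
      GP k (fun p : Oth σ => form (y p.1.1 (σ p.1.1) - y p.1.1 p.1.2)) := by
  classical
  -- the determinants
  let M : (ι → Fin d) → (Fin (k + 1) → ι × Fin d) →
      Matrix (Fin (k + 1)) (Fin (k + 1)) (MvPolynomial ((ι × Fin d) × Fin (k + 1)) ℂ) :=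
    fun σ e => Matrix.of fun i l => X (((e i).1, σ (e i).1), l) - X (e i, l)
  have hM : ∀ σ e i l, M σ e i l = X (((e i).1, σ (e i).1), l) - X (e i, l) := fun _ _ _ _ => rfl
  let Good : (ι → Fin d) × (Fin (k + 1) → ι × Fin d) → Prop := fun p =>
    Function.Injective p.2 ∧ ∀ i, (p.2 i).2 ≠ p.1 (p.2 i).1
  have hdet : ∀ p, Good p → (M p.1 p.2).det ≠ 0 := by
    rintro ⟨σ, e⟩ ⟨hinj, hne⟩ h0
    have h1 := congrArg (eval fun q : (ι × Fin d) × Fin (k + 1) =>
      if e q.2 = q.1 then (-1 : ℂ) else 0) h0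
    rw [map_zero, RingHom.map_det] at h1
    have h2 : (eval fun q : (ι × Fin d) × Fin (k + 1) =>
        if e q.2 = q.1 then (-1 : ℂ) else 0).mapMatrix (M σ e) = 1 := by
      ext i l
      rw [RingHom.mapMatrix_apply, Matrix.map_apply, hM, map_sub, eval_X, eval_X]
      change (if e l = ((e i).1, σ (e i).1) then (-1 : ℂ) else 0) -
        (if e l = e i then (-1 : ℂ) else 0) = _
      rw [if_neg, zero_sub]
      · by_cases hil : i = l
        · subst hil
          rw [if_pos rfl, neg_neg, Matrix.one_apply_eq]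
        · rw [if_neg (fun h => hil (hinj h).symm), neg_zero, Matrix.one_apply_ne hil]
      · intro h
        apply hne l
        change (e l).2 = σ (e l).1
        rw [h]
    rw [h2, Matrix.det_one] at h1
    exact one_ne_zero h1
  have hprod : (∏ p ∈ Finset.univ.filter Good, (M p.1 p.2).det) ≠ 0 :=
    Finset.prod_ne_zero_iff.2 fun p hp => hdet p (Finset.mem_filter.1 hp).2
  obtain ⟨Y, hY⟩ : ∃ Y, eval Y (∏ p ∈ Finset.univ.filter Good, (M p.1 p.2).det) ≠ 0 := by
    by_contra hcon
    push Not at hcon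
    exact hprod (MvPolynomial.funext fun x => by rw [hcon x, map_zero])
  rw [map_prod, Finset.prod_ne_zero_iff] at hY
  refine ⟨fun j b l => Y ((j, b), l), fun σ T hT x hx => ?_⟩
  let E := T.equivFinOfCardEq hT
  let e : Fin (k + 1) → ι × Fin d := fun i => (E.symm i).1.1
  have hgood : Good (σ, e) := by
    refine ⟨fun i l hil => ?_, fun i => (E.symm i).1.2⟩
    exact E.symm.injective (Subtype.ext (Subtype.ext hil))
  have h1 := hY (σ, e) (Finset.mem_filter.2 ⟨Finset.mem_univ _, hgood⟩)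
  rw [RingHom.map_det] at h1
  refine Matrix.eq_zero_of_mulVec_eq_zero h1 ?_
  funext i
  have h2 := hx (E.symm i) (E.symm i).2
  rw [form_apply] at h2
  rw [Pi.zero_apply, ← h2]
  change ∑ l, _ * x l = _
  refine Finset.sum_congr rfl fun l _ => ?_
  congr 1
  rw [RingHom.mapMatrix_apply, Matrix.map_apply, hM, map_sub, eval_X, eval_X]
  rfl

end Pool.Agent.H20.DF
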